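import Mathlib

/-!
# Sparse squares of numbers with many nonzero digits

For every base `b ≥ 2` there are integers `n` with arbitrarily many nonzero base-`b` digits whose
squares have at most `11` nonzero base-`b` digits (at most `7` for `b = 2` and at most `5` for
`b ≥ 33`).  They come from the polynomial `f(x) = 4x^4 + 4x^3 - 2x^2 + 2x + 1`, which has a
negative coefficient, while `f(x)^2 = 16x^8 + 32x^7 + 28x^4 + 4x + 1`.
-/

namespace Pool.Agent.Results.MP_dd1d4c_nt.SparseSquares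

/-- `N b m` is the number of nonzero digits of `m` in base `b`. -/
def N (b m : ℕ) : ℕ := ((Nat.digits b m).filter (fun d => d ≠ 0)).length

/-- The statement of Q1 for the prime `p`: if `n^2` has at most `s` nonzero base-`p` digits, then
`n` has at most `ℓ(p, s)` nonzero base-`p` digits. -/
def Q1 (p : ℕ) : Prop := ∀ s : ℕ, 1 ≤ s → ∃ l : ℕ, ∀ n : ℕ, N p (n ^ 2) ≤ s → N p n ≤ l

lemma N_zero (b : ℕ) : N b 0 = 0 := by simp [N]

lemma N_step {b : ℕ} (hb : 2 ≤ b) {d : ℕ} (hd : d < b) (m : ℕ) :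
    N b (d + b * m) = (if d = 0 then 0 else 1) + N b m := by
  by_cases h : d = 0 ∧ m = 0
  · obtain ⟨rfl, rfl⟩ := h
    simp [N_zero]
  · have h' : d ≠ 0 ∨ m ≠ 0 := by
      by_contra hcon
      push Not at hcon
      exact h hcon
    unfold N
    rw [Nat.digits_add b (by omega) d m hd h', List.filter_cons]
    by_cases hd0 : d = 0
    · simp [hd0]
    · simp [hd0, Nat.add_comm]

/-- Nonzero digits of a concatenation. -/
lemma N_block {b : ℕ} (hb : 2 ≤ b) (k : ℕ) : ∀ (a m : ℕ), a < b ^ k →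
    N b (a + b ^ k * m) = N b a + N b m := by
  induction k with
  | zero =>
    intro a m ha
    have : a = 0 := by simpa using ha
    subst this
    simp [N_zero]
  | succ k ih =>
    intro a m ha
    have hdiv : a / b < b ^ k := by
      apply Nat.div_lt_of_lt_mul
      rwa [pow_succ, Nat.mul_comm] at ha
    have hmod : a % b < b := Nat.mod_lt _ (by omega)
    have e1 : a + b ^ (k + 1) * m = a % b + b * (a / b + b ^ k * m) := by
      have := Nat.mod_add_div a b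
      calc a + b ^ (k + 1) * m = (a % b + b * (a / b)) + b ^ (k + 1) * m := by rw [this]
        _ = _ := by ring
    have e2 : N b a = (if a % b = 0 then 0 else 1) + N b (a / b) := by
      conv_lhs => rw [← Nat.mod_add_div a b]
      exact N_step hb hmod _
    rw [e1, N_step hb hmod, ih _ _ hdiv, e2]
    ring

lemma N_pred_pow {b : ℕ} (hb : 2 ≤ b) (k : ℕ) : N b (b ^ k - 1) = k := by
  induction k with
  | zero => simp [N_zero]
  | succ k ih =>
    have hpos : 1 ≤ b ^ k := Nat.one_le_pow _ _ (by omega)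
    have e : b ^ (k + 1) - 1 = (b - 1) + b * (b ^ k - 1) := by
      obtain ⟨x, hx⟩ : ∃ x, b ^ k = x + 1 := ⟨b ^ k - 1, by omega⟩
      rw [pow_succ, hx, Nat.add_sub_cancel]
      obtain ⟨c, rfl⟩ : ∃ c, b = c + 1 := ⟨b - 1, by omega⟩
      have : (x + 1) * (c + 1) = (c + 1) * x + c + 1 := by ring
      omega
    rw [e, N_step hb (by omega), ih, if_neg (by omega)]
    omega

lemma N_pow_sub_two {b : ℕ} (hb : 2 ≤ b) {k : ℕ} (hk : 1 ≤ k) : k - 1 ≤ N b (b ^ k - 2) := by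
  obtain ⟨j, rfl⟩ : ∃ j, k = j + 1 := ⟨k - 1, by omega⟩
  have hpos : 1 ≤ b ^ j := Nat.one_le_pow _ _ (by omega)
  have e : b ^ (j + 1) - 2 = (b - 2) + b * (b ^ j - 1) := by
    obtain ⟨x, hx⟩ : ∃ x, b ^ j = x + 1 := ⟨b ^ j - 1, by omega⟩
    rw [pow_succ, hx, Nat.add_sub_cancel]
    obtain ⟨c, rfl⟩ : ∃ c, b = c + 2 := ⟨b - 2, by omega⟩
    have : (x + 1) * (c + 2) = (c + 2) * x + c + 2 := by ring
    omega
  rw [e, N_step hb (by omega), N_pred_pow hb]
  omega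

/-- The number `4x^4 + 4x^3 - 2x^2 + 2x + 1`. -/
def num (x : ℕ) : ℕ := 4 * x ^ 4 + 4 * x ^ 3 + 2 * x + 1 - 2 * x ^ 2

lemma num_eq {x : ℕ} (hx : 1 ≤ x) : num x + 2 * x ^ 2 = 4 * x ^ 4 + 4 * x ^ 3 + 2 * x + 1 := by
  unfold num
  have h1 : x ^ 2 ≤ x ^ 3 := Nat.pow_le_pow_right hx (by norm_num)
  omega

lemma num_sq {x : ℕ} (hx : 1 ≤ x) :
    num x ^ 2 = 16 * x ^ 8 + 32 * x ^ 7 + 28 * x ^ 4 + 4 * x + 1 := by
  have h := num_eq hx
  have h' : (num x : ℤ) = 4 * (x : ℤ) ^ 4 + 4 * x ^ 3 + 2 * x + 1 - 2 * x ^ 2 := by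
    have : ((num x + 2 * x ^ 2 : ℕ) : ℤ) = ((4 * x ^ 4 + 4 * x ^ 3 + 2 * x + 1 : ℕ) : ℤ) := by
      rw [h]
    push_cast at this
    linarith
  have : ((num x ^ 2 : ℕ) : ℤ) = ((16 * x ^ 8 + 32 * x ^ 7 + 28 * x ^ 4 + 4 * x + 1 : ℕ) : ℤ) := by
    push_cast
    rw [h']
    ring
  exact_mod_cast this

lemma num_many {b : ℕ} (hb : 2 ≤ b) {k : ℕ} (hk : 6 ≤ k) : k - 1 ≤ N b (num (b ^ k)) := by
  have h64 : 64 ≤ b ^ k := by
    calc 64 = 2 ^ 6 := by norm_num
      _ ≤ b ^ 6 := Nat.pow_le_pow_left hb 6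
      _ ≤ b ^ k := Nat.pow_le_pow_right (by omega) hk
  set x := b ^ k with hx
  have e : num x = 1 + b ^ k * (2 + b ^ k * ((x - 2) + b ^ k * (3 + b ^ k * 4))) := by
    rw [← hx]
    have h := num_eq (x := x) (by omega)
    obtain ⟨y, hy⟩ : ∃ y, x = y + 2 := ⟨x - 2, by omega⟩
    rw [hy, Nat.add_sub_cancel]
    rw [hy] at h
    nlinarith
  rw [e, N_block hb k _ _ (by omega), N_block hb k _ _ (by omega), N_block hb k _ _ (by omega)]
  have := N_pow_sub_two hb (show 1 ≤ k by omega)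
  rw [← hx] at this
  omega

lemma num_sq_few {b : ℕ} (hb : 2 ≤ b) {k : ℕ} (hk : 6 ≤ k) :
    N b (num (b ^ k) ^ 2) = N b 1 + N b 4 + N b 28 + N b 32 + N b 16 := by
  have h64 : 64 ≤ b ^ k := by
    calc 64 = 2 ^ 6 := by norm_num
      _ ≤ b ^ 6 := Nat.pow_le_pow_left hb 6
      _ ≤ b ^ k := Nat.pow_le_pow_right (by omega) hk
  have hpos : 0 < b ^ k := by omega
  have e : num (b ^ k) ^ 2 = 1 + b ^ k * (4 + b ^ k * (0 + b ^ k * (0 + b ^ k * (28 + b ^ k *
      (0 + b ^ k * (0 + b ^ k * (32 + b ^ k * 16))))))) := by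
    rw [num_sq (by omega)]
    ring
  rw [e]
  rw [N_block hb k _ _ (by omega), N_block hb k _ _ (by omega), N_block hb k _ _ hpos,
    N_block hb k _ _ hpos, N_block hb k _ _ (by omega), N_block hb k _ _ hpos,
    N_block hb k _ _ hpos, N_block hb k _ _ (by omega), N_zero]
  ring

lemma N_lt {b c : ℕ} (hc : c < b) : N b c ≤ 1 := by
  rcases Nat.eq_zero_or_pos c with rfl | h
  · rw [N_zero]; exact Nat.zero_le _
  · unfold N
    rw [Nat.digits_of_lt b c (by omega) hc]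
    simp [List.filter_cons]
    split_ifs <;> simp

lemma total_large {b : ℕ} (hb : 33 ≤ b) : N b 1 + N b 4 + N b 28 + N b 32 + N b 16 ≤ 5 := by
  have h1 := N_lt (b := b) (c := 1) (by omega)
  have h2 := N_lt (b := b) (c := 4) (by omega)
  have h3 := N_lt (b := b) (c := 28) (by omega)
  have h4 := N_lt (b := b) (c := 32) (by omega)
  have h5 := N_lt (b := b) (c := 16) (by omega)
  omega

lemma total_two : N 2 1 + N 2 4 + N 2 28 + N 2 32 + N 2 16 = 7 := by
  simp [N]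

lemma total_le {b : ℕ} (hb : 2 ≤ b) : N b 1 + N b 4 + N b 28 + N b 32 + N b 16 ≤ 11 := by
  rcases le_or_gt 33 b with h | h
  · have := total_large h
    omega
  · interval_cases b <;> simp [N]

/-- **Main theorem.** (1) In every base `b ≥ 2` there are integers `n` with arbitrarily many
nonzero digits such that `n^2` has at most `11` nonzero digits; (2) for bases `b ≥ 33` one can
replace `11` by `5`; (3) for `b = 2` one can replace `11` by `7`; (4) the statement of Q1 is false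
for every prime `p`. -/
theorem result :
    (∀ b : ℕ, 2 ≤ b → ∀ L : ℕ, ∃ n : ℕ, N b (n ^ 2) ≤ 11 ∧ L ≤ N b n) ∧
    (∀ b : ℕ, 33 ≤ b → ∀ L : ℕ, ∃ n : ℕ, N b (n ^ 2) ≤ 5 ∧ L ≤ N b n) ∧
    (∀ L : ℕ, ∃ n : ℕ, N 2 (n ^ 2) ≤ 7 ∧ L ≤ N 2 n) ∧
    ∀ p : ℕ, p.Prime → ¬ Q1 p := by
  have key : ∀ b : ℕ, 2 ≤ b → ∀ L : ℕ, ∃ n : ℕ,
      N b (n ^ 2) = N b 1 + N b 4 + N b 28 + N b 32 + N b 16 ∧ L ≤ N b n := by
    intro b hb L
    refine ⟨num (b ^ (L + 6)), num_sq_few hb (by omega), ?_⟩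
    have := num_many hb (k := L + 6) (by omega)
    omega
  have h11 : ∀ b : ℕ, 2 ≤ b → ∀ L : ℕ, ∃ n : ℕ, N b (n ^ 2) ≤ 11 ∧ L ≤ N b n := by
    intro b hb L
    obtain ⟨n, h1, h2⟩ := key b hb L
    exact ⟨n, by rw [h1]; exact total_le hb, h2⟩
  refine ⟨h11, ?_, ?_, ?_⟩
  · intro b hb L
    obtain ⟨n, h1, h2⟩ := key b (by omega) L
    exact ⟨n, by rw [h1]; exact total_large hb, h2⟩
  · intro L
    obtain ⟨n, h1, h2⟩ := key 2 le_rfl L
    exact ⟨n, by rw [h1, total_two], h2⟩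
  · intro p hp h
    obtain ⟨l, hl⟩ := h 11 (by norm_num)
    obtain ⟨n, h1, h2⟩ := h11 p hp.two_le (l + 1)
    have := hl n h1
    omega

end Pool.Agent.Results.MP_dd1d4c_nt.SparseSquares
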